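import Pool.Agent.Y461.KM.Stm

/-!
# Project KM: divisibility of derivatives and covariance
-/

set_option autoImplicit false

namespace Pool.Agent.Y461.KM

open MvPolynomial

section
variable {n m : ℕ} {A : Matrix (Fin n) (Fin n) ℤ} {b : Fin n → Fin m → ℚ} {j : Fin n}

theorem rf_X (x : Fin n ⊕ Fin m) :
    rf A b j (X x) = X x - if x = Sum.inl j then al A b j else 0 := by
  simp [rf]

theorem rf_inr (s : Fin m) : rf A b j (X (Sum.inr s)) = X (Sum.inr s) := by
  simp [rf_X]

theorem rf_al (l : Fin n) : rf A b j (al A b l) = al A b l - C ((A j l : ℤ) : ℚ) * al A b j := by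
  have h : ∀ (c : ℚ), rf A b j (C c) = C c := fun c => AlgHom.commutes _ c
  simp only [al, map_add, map_sum, map_mul, h, rf_inr]
  have h1 : ∀ x : Fin n, rf A b j (X (Sum.inl x) : Pl n m) =
      X (Sum.inl x) - if x = j then al A b j else 0 := by
    intro x
    rw [rf_X]
    simp
  simp only [h1, mul_sub, Finset.sum_sub_distrib, mul_ite, mul_zero, Finset.sum_ite_eq',
    Finset.mem_univ, if_true]
  simp only [al]
  ring

theorem rf_al_self (hj : A j j = 2) : rf A b j (al A b j) = - al A b j := by
  rw [rf_al, hj]
  simp only [Int.cast_ofNat, map_ofNat]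
  ring

theorem rf_rf (hj : A j j = 2) (f : Pl n m) : rf A b j (rf A b j f) = f := by
  have : (rf A b j).comp (rf A b j) = AlgHom.id ℚ (Pl n m) := by
    apply MvPolynomial.algHom_ext
    intro x
    simp only [AlgHom.comp_apply, AlgHom.id_apply, rf_X, map_sub]
    split_ifs with hx
    · rw [rf_al_self hj]; ring
    · simp
  exact congrArg (fun φ => φ f) this

theorem der_add (v : Fin n → ℤ) (f g : Pl n m) : der v (f + g) = der v f + der v g := by
  simp [der, mul_add, Finset.sum_add_distrib]

theorem der_mul (v : Fin n → ℤ) (f g : Pl n m) : der v (f * g) = der v f * g + f * der v g := by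
  simp only [der, Derivation.leibniz, smul_eq_mul, mul_add, Finset.sum_add_distrib,
    Finset.sum_mul, Finset.mul_sum]
  rw [add_comm]
  congr 1 <;> exact Finset.sum_congr rfl (fun i _ => by ring)

theorem der_C (v : Fin n → ℤ) (c : ℚ) : der v (C c : Pl n m) = 0 := by
  simp [der]

theorem der_X_inl (v : Fin n → ℤ) (x : Fin n) :
    der v (X (Sum.inl x) : Pl n m) = C ((v x : ℤ) : ℚ) := by
  rw [der, Finset.sum_eq_single x]
  · simp
  · intro i _ hi
    rw [pderiv_X_of_ne (by simpa using fun h => hi h.symm)]
    simp
  · simp

theorem der_X_inr (v : Fin n → ℤ) (s : Fin m) :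
    der v (X (Sum.inr s) : Pl n m) = 0 := by
  rw [der]
  refine Finset.sum_eq_zero (fun i _ => ?_)
  rw [pderiv_X_of_ne (by simp)]
  simp

theorem der_sum {ι : Type} (s : Finset ι) (v : Fin n → ℤ) (f : ι → Pl n m) :
    der v (∑ i ∈ s, f i) = ∑ i ∈ s, der v (f i) := by
  classical
  induction s using Finset.induction_on with
  | empty => simp [der]
  | insert a s ha ih => rw [Finset.sum_insert ha, Finset.sum_insert ha, der_add, ih]

theorem der_al (v : Fin n → ℤ) (l : Fin n) :
    der v (al A b l) = C ((∑ k, v k * A k l : ℤ) : ℚ) := by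
  rw [al, der_add, der_sum, der_sum]
  simp only [der_mul, der_C, der_X_inl, der_X_inr, zero_mul, mul_zero, zero_add, add_zero,
    Finset.sum_const_zero]
  push_cast
  rw [map_sum]
  refine Finset.sum_congr rfl (fun i _ => ?_)
  rw [map_mul, mul_comm]

theorem rf_der (hj : A j j = 2) (v : Fin n → ℤ) (f : Pl n m) :
    rf A b j (der v f) = der (sv A j v) (rf A b j f) := by
  have h : ∀ (c : ℚ), rf A b j (C c) = C c := fun c => AlgHom.commutes _ c
  induction f using MvPolynomial.induction_on with
  | C a => rw [h, der_C, der_C, map_zero]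
  | add p q hp hq => rw [der_add, map_add, map_add, der_add, hp, hq]
  | mul_X p x hp =>
    rw [der_mul, map_add, map_mul, map_mul, map_mul, der_mul, hp]
    congr 2
    rcases x with x | s
    · have h1 : rf A b j (X (Sum.inl x) : Pl n m) =
          X (Sum.inl x) - if x = j then al A b j else 0 := by
        rw [rf_X]
        simp
      rw [der_X_inl, h, h1]
      by_cases hx : x = j
      · subst hx
        rw [if_pos rfl, sub_eq_add_neg, der_add, der_X_inl]
        have h2 : der (sv A x v) (- al A b x) = - der (sv A x v) (al A b x) := by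
          have := der_mul (sv A x v) (C (-1 : ℚ)) (al A b x)
          rw [der_C, zero_mul, zero_add] at this
          simpa using this
        rw [h2, der_al, ← map_neg, ← map_add]
        congr 1
        have h3 : ∑ k, sv A x v k * A k x = - ∑ k, v k * A k x := by
          simp only [sv, sub_mul, ite_mul, zero_mul, Finset.sum_sub_distrib, Finset.sum_ite_eq',
            Finset.mem_univ, if_true, hj]
          ring
        rw [h3]
        simp only [sv, if_true]
        push_cast
        ring
      · rw [if_neg hx, sub_zero, der_X_inl]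
        simp [sv, hx]
    · rw [rf_inr, der_X_inr, der_X_inr, map_zero]

end

theorem cov : S_COV := by
  intro n m A b j hj
  have h : ∀ (c : ℚ), rf A b j (C c) = C c := fun c => AlgHom.commutes _ c
  refine ⟨fun v f => rf_der hj v f, ?_, fun f => rf_rf hj f, ?_⟩
  · intro r
    simp only [rl, map_sum, map_mul, h, rf_al, mul_sub, Finset.sum_sub_distrib, sr]
    have h1 : ∀ x : Fin n, (C (((r x - if x = j then ∑ l, A j l * r l else 0 : ℤ)) : ℚ) : Pl n m)
        * al A b x = C ((r x : ℤ) : ℚ) * al A b x -
          if x = j then C ((∑ l, A j l * r l : ℤ) : ℚ) * al A b j else 0 := by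
      intro x
      split_ifs with hx
      · subst hx
        push_cast
        rw [map_sub, sub_mul]
      · simp
    simp only [h1, Finset.sum_sub_distrib, Finset.sum_ite_eq', Finset.mem_univ, if_true]
    congr 1
    push_cast
    rw [map_sum, Finset.sum_mul]
    refine Finset.sum_congr rfl (fun i _ => ?_)
    rw [map_mul]
    ring
  · intro r v
    have e1 : pr A (sr A j r) (sv A j v) = ∑ k, ∑ l, (v k * A k l * r l
        - v k * A k l * (if l = j then ∑ l, A j l * r l else 0)
        - (if k = j then ∑ k, v k * A k j else 0) * A k l * r l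
        + (if k = j then ∑ k, v k * A k j else 0) * A k l *
            (if l = j then ∑ l, A j l * r l else 0)) := by
      simp only [pr, sr, sv]
      refine Finset.sum_congr rfl (fun k _ => Finset.sum_congr rfl (fun l _ => ?_))
      ring
    rw [e1]
    simp only [Finset.sum_add_distrib, Finset.sum_sub_distrib, mul_ite, ite_mul, mul_zero,
      zero_mul, Finset.sum_ite_eq', Finset.mem_univ, if_true, hj, pr]
    have e2 : ∑ x, v x * A x j * ∑ l, A j l * r l = (∑ k, v k * A k j) * ∑ l, A j l * r l := by
      rw [Finset.sum_mul]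
    have e3 : ∑ x : Fin n, ∑ x_1 : Fin n,
        (if x = j then (∑ k, v k * A k j) * A x x_1 * r x_1 else 0) =
        (∑ k, v k * A k j) * ∑ l, A j l * r l := by
      rw [Finset.sum_comm]
      simp only [Finset.sum_ite_eq', Finset.mem_univ, if_true]
      rw [Finset.mul_sum]
      refine Finset.sum_congr rfl (fun l _ => by ring)
    rw [e2, e3]
    ring

theorem div : S_DIV := by
  intro n m A b i f hi hf
  have h : ∀ (c : ℚ), rf A b i (C c) = C c := fun c => AlgHom.commutes _ c
  set F : Pl n m := pderiv (Sum.inl i) f with hF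
  have hder : der (Pi.single i 1) f = F := by
    rw [der, Finset.sum_eq_single i]
    · simp [hF]
    · intro k _ hk
      simp [Pi.single_apply, hk]
    · simp
  have hsv : sv A i (Pi.single i 1) = fun x => - (Pi.single i 1 : Fin n → ℤ) x := by
    funext x
    simp only [sv, Pi.single_apply, ite_mul, one_mul, zero_mul, Finset.sum_ite_eq',
      Finset.mem_univ, if_true, hi]
    split_ifs with hx <;> simp
  have hF1 : rf A b i F = - F := by
    rw [← hder, rf_der hi, hf, hsv, hder, der, hF]
    rw [Finset.sum_eq_single i]
    · simp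
    · intro k _ hk
      simp [Pi.single_apply, hk]
    · simp
  have hdvd : ∀ p : Pl n m, al A b i ∣ rf A b i p - p := by
    intro p
    induction p using MvPolynomial.induction_on with
    | C a => rw [h]; simp
    | add p q hp hq =>
      have : rf A b i (p + q) - (p + q) = (rf A b i p - p) + (rf A b i q - q) := by
        rw [map_add]; ring
      rw [this]
      exact dvd_add hp hq
    | mul_X p x hp =>
      have hx : al A b i ∣ rf A b i (X x) - X x := by
        rw [rf_X]
        split_ifs
        · exact ⟨-1, by ring⟩
        · simp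
      have : rf A b i (p * X x) - p * X x =
          (rf A b i p - p) * rf A b i (X x) + p * (rf A b i (X x) - X x) := by
        rw [map_mul]; ring
      rw [this]
      exact dvd_add (hp.mul_right _) (hx.mul_left _)
  obtain ⟨g, hg⟩ := hdvd F
  rw [hF1] at hg
  have hFg : F = al A b i * (C (-1 / 2 : ℚ) * g) := by
    have h1 : (C (-1 / 2 : ℚ) : Pl n m) * (-F - F) = F := by
      have h3 : (C (-1 / 2 : ℚ) : Pl n m) * C (-2 : ℚ) = 1 := by
        rw [← map_mul]; norm_num
      have h2 : (-F - F : Pl n m) = C (-2 : ℚ) * F := by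
        simp only [map_neg, map_ofNat]; ring
      rw [h2, ← mul_assoc, h3, one_mul]
    calc F = C (-1 / 2 : ℚ) * (-F - F) := h1.symm
      _ = C (-1 / 2 : ℚ) * (al A b i * g) := by rw [hg]
      _ = _ := by ring
  refine ⟨C (-1 / 2 : ℚ) * g, hFg, ?_⟩
  have hal : al A b i ≠ 0 := by
    intro h0
    have h1 : der (Pi.single i 1) (al A b i) = 0 := by rw [h0]; simp [der]
    rw [der_al] at h1
    simp only [Pi.single_apply, ite_mul, one_mul, zero_mul, Finset.sum_ite_eq',
      Finset.mem_univ, if_true, hi] at h1
    have h2 := congrArg (eval (fun _ => (0 : ℚ))) h1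
    simp at h2
  have h1 := hF1
  rw [hFg, map_mul, rf_al_self hi] at h1
  have h2 : al A b i * rf A b i (C (-1 / 2 : ℚ) * g) = al A b i * (C (-1 / 2 : ℚ) * g) := by
    have := congrArg Neg.neg h1
    rw [neg_neg, ← neg_mul, neg_neg] at this
    exact this
  exact mul_left_cancel₀ hal h2

end Pool.Agent.Y461.KM
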