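import Mathlib

/-!
# Project KM: the cochain algebra of a generalized Cartan matrix

`A` is an integer `n × n` matrix.  The torus has rank `n + m`: its rational cocharacter space has
the basis `h_1, …, h_n` (simple coroots) and `t_1, …, t_m`; the simple root `α_i` has the values
`α_i(h_j) = A j i` and `α_i(t_s) = b i s`.
-/

set_option autoImplicit false

namespace Pool.Agent.Y461.KM

open MvPolynomial

/-- Polynomial functions on the space with basis `h_1, …, h_n, t_1, …, t_m`. -/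
abbrev Pl (n m : ℕ) : Type := MvPolynomial (Fin n ⊕ Fin m) ℚ

/-- The simple root `α_i` as a linear form: `α_i(h_j) = A j i`, `α_i(t_s) = b i s`. -/
noncomputable def al {n m : ℕ} (A : Matrix (Fin n) (Fin n) ℤ) (b : Fin n → Fin m → ℚ)
    (i : Fin n) : Pl n m :=
  ∑ j, C ((A j i : ℤ) : ℚ) * X (Sum.inl j) + ∑ s, C (b i s) * X (Sum.inr s)

/-- The simple reflection `v ↦ v - α_i(v) h_i`, acting on polynomial functions. -/
noncomputable def rf {n m : ℕ} (A : Matrix (Fin n) (Fin n) ℤ) (b : Fin n → Fin m → ℚ)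
    (i : Fin n) : Pl n m →ₐ[ℚ] Pl n m :=
  aeval (fun x => X x - if x = Sum.inl i then al A b i else 0)

/-- Generalized Cartan matrix. -/
def IsGCM {n : ℕ} (A : Matrix (Fin n) (Fin n) ℤ) : Prop :=
  (∀ i, A i i = 2) ∧ (∀ i j, i ≠ j → A i j ≤ 0) ∧ (∀ i j, A i j = 0 ↔ A j i = 0)

/-- Indecomposable matrix. -/
def Indec {n : ℕ} (A : Matrix (Fin n) (Fin n) ℤ) : Prop :=
  ∀ S : Finset (Fin n), S.Nonempty → S ≠ Finset.univ → ∃ i ∈ S, ∃ j, j ∉ S ∧ A i j ≠ 0

/-- Indefinite type (for an indecomposable matrix): `A u < 0` for some `u > 0`. -/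
def Indef {n : ℕ} (A : Matrix (Fin n) (Fin n) ℤ) : Prop :=
  ∃ u : Fin n → ℝ, (∀ i, 0 < u i) ∧ ∀ i, ∑ j, (A i j : ℝ) * u j < 0

/-- The ring of invariants of the parabolic subgroup `W_J`. -/
noncomputable def Inv {n m : ℕ} (A : Matrix (Fin n) (Fin n) ℤ) (b : Fin n → Fin m → ℚ)
    (J : Finset (Fin n)) : Subalgebra ℚ (Pl n m) where
  carrier := {f | ∀ j ∈ J, rf A b j f = f}
  mul_mem' := by
    intro f g hf hg j hj
    rw [map_mul, hf j hj, hg j hj]
  add_mem' := by
    intro f g hf hg j hj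
    rw [map_add, hf j hj, hg j hj]
  algebraMap_mem' := by
    intro r j _
    exact AlgHom.commutes _ r

/-- `J` is spherical: the group generated by the simple reflections `s_j`, `j ∈ J`, is finite. -/
def Sph {n m : ℕ} (A : Matrix (Fin n) (Fin n) ℤ) (b : Fin n → Fin m → ℚ)
    (J : Finset (Fin n)) : Prop :=
  (Submonoid.closure ((fun j => rf A b j) '' (J : Set (Fin n))) :
    Set (Pl n m →ₐ[ℚ] Pl n m)).Finite

/-- Simplices: nonempty chains of spherical subsets. -/
def Smp {n m : ℕ} (A : Matrix (Fin n) (Fin n) ℤ) (b : Fin n → Fin m → ℚ)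
    (c : Finset (Finset (Fin n))) : Prop :=
  c.Nonempty ∧ (∀ J ∈ c, Sph A b J) ∧ (∀ J ∈ c, ∀ K ∈ c, J ⊆ K ∨ K ⊆ J)

/-- Functions on finite sets of subsets of `{1, …, n}` with values in the polynomial ring. -/
abbrev Cch (n m : ℕ) : Type := Finset (Finset (Fin n)) → Pl n m

/-- Cochains: `Φ c = 0` unless `c` is a nonempty chain of spherical subsets, and `Φ c` is
invariant under `W_J` for the smallest member `J` of `c` (which is `c.inf id`). -/
def Co {n m : ℕ} (A : Matrix (Fin n) (Fin n) ℤ) (b : Fin n → Fin m → ℚ) (Φ : Cch n m) : Prop :=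
  ∀ c, (¬ Smp A b c → Φ c = 0) ∧ Φ c ∈ Inv A b (c.inf id)

open Classical in
/-- The differential `(dΦ)(J_0 < … < J_p) = ∑ (-1)^i Φ(J_0 < … omit J_i … < J_p)`. -/
noncomputable def dd {n m : ℕ} (A : Matrix (Fin n) (Fin n) ℤ) (b : Fin n → Fin m → ℚ)
    (Φ : Cch n m) : Cch n m := fun c =>
  if Smp A b c then ∑ J ∈ c, (-1) ^ (c.filter (fun K => K ⊂ J)).card * Φ (c.erase J) else 0

open Classical in
/-- The cup product: on a chain `J_0 < … < J_p` the sum over all `i` of
`Φ(J_0 < … < J_i) Ψ(J_i < … < J_p)`. -/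
noncomputable def cup {n m : ℕ} (A : Matrix (Fin n) (Fin n) ℤ) (b : Fin n → Fin m → ℚ)
    (Φ Ψ : Cch n m) : Cch n m := fun c =>
  if Smp A b c then
    ∑ J ∈ c, Φ (c.filter (fun K => K ⊆ J)) * Ψ (c.filter (fun K => J ⊆ K)) else 0

open Classical in
/-- The unit: the cochain with the value `1` at every vertex. -/
noncomputable def un {n m : ℕ} (A : Matrix (Fin n) (Fin n) ℤ) (b : Fin n → Fin m → ℚ) :
    Cch n m := fun c =>
  if Smp A b c ∧ c.card = 1 then 1 else 0

/-- The `ℚ`-algebra of functions generated by `s`: the smallest set containing `s` and the unit,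
closed under sums, rational multiples and cup products. -/
inductive Gen {n m : ℕ} (A : Matrix (Fin n) (Fin n) ℤ) (b : Fin n → Fin m → ℚ)
    (s : Set (Cch n m)) : Cch n m → Prop
  | mem (Φ : Cch n m) : Φ ∈ s → Gen A b s Φ
  | one : Gen A b s (un A b)
  | add (Φ Ψ : Cch n m) : Gen A b s Φ → Gen A b s Ψ → Gen A b s (Φ + Ψ)
  | smul (a : ℚ) (Φ : Cch n m) : Gen A b s Φ → Gen A b s (a • Φ)
  | cup (Φ Ψ : Cch n m) : Gen A b s Φ → Gen A b s Ψ → Gen A b s (cup A b Φ Ψ)

/-- The cohomology ring (cocycles modulo coboundaries, with the cup product) is a finitely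
generated `ℚ`-algebra: there is a finite set of cocycles such that every cocycle is cohomologous
to an element of the algebra generated by it. -/
def FinGen {n m : ℕ} (A : Matrix (Fin n) (Fin n) ℤ) (b : Fin n → Fin m → ℚ) : Prop :=
  ∃ s : Set (Cch n m), s.Finite ∧ (∀ Φ ∈ s, Co A b Φ ∧ dd A b Φ = 0) ∧
    ∀ Φ, Co A b Φ → dd A b Φ = 0 →
      ∃ Ψ Θ, Gen A b s Ψ ∧ Co A b Θ ∧ Φ = Ψ + dd A b Θ

end Pool.Agent.Y461.KM
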