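import Pool.Agent.Y461.KM.Stm

/-!
# Project KM: the final degree count
-/

set_option autoImplicit false

namespace Pool.Agent.Y461.KM

open MvPolynomial

theorem inf_mem {n : ℕ} (c : Finset (Finset (Fin n))) (hc : c.Nonempty)
    (h : ∀ J ∈ c, ∀ K ∈ c, J ⊆ K ∨ K ⊆ J) : c.inf id ∈ c := by
  obtain ⟨J, hJ, hmin⟩ := Finset.exists_min_image c Finset.card hc
  have hle : ∀ K ∈ c, J ⊆ K := by
    intro K hK
    rcases h J hJ K hK with h1 | h1
    · exact h1
    · rw [Finset.eq_of_subset_of_card_le h1 (hmin K hK)]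
  have : c.inf id = J := by
    apply le_antisymm
    · exact Finset.inf_le (f := id) hJ
    · exact Finset.le_inf (fun K hK => hle K hK)
  rw [this]
  exact hJ

theorem fin_of (hMOL : S_MOL) (hHS : S_HS) (hEUL : S_EUL) (hPT : S_PT) (hGRD : S_GRD)
    (hFGM : S_FGM) (hPW : S_PW) : S_FIN := by
  classical
  intro n m A b hn hA hI hF hG
  have h2 : ∀ i, A i i = 2 := hA.1
  obtain ⟨q, hq, hQ⟩ := hPW n m A b hA hI hF
  let θ : Fin (m + 1) → Pl n m := Fin.cons q (fun s : Fin m => (X (Sum.inr s) : Pl n m))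
  let d : Fin (m + 1) → ℕ := Fin.cons 2 (fun _ => 1)
  have hd : ∀ i, 0 < d i := by
    intro i
    refine Fin.cases ?_ (fun j => ?_) i <;> simp [d]
  have hθ : ∀ i, (θ i).IsHomogeneous (d i) := by
    intro i
    refine Fin.cases ?_ (fun j => ?_) i
    · simpa [θ, d] using hq
    · simpa [θ, d] using isHomogeneous_X ℚ (Sum.inr j : Fin n ⊕ Fin m)
  have hθI : ∀ i, θ i ∈ Inv A b Finset.univ := by
    intro i
    rw [hQ]
    exact Algebra.subset_adjoin ⟨i, rfl⟩
  -- Hilbert–Serre in every degree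
  have hp : ∀ p, ∃ N : Polynomial ℚ,
      (gf (fun k => Module.finrank ℚ ↥(Zp A b p ⊓ hk (Finset (Finset (Fin n))) (Fin n ⊕ Fin m) k)) -
        gf (fun k => Module.finrank ℚ
          ↥(Bp A b p ⊓ hk (Finset (Finset (Fin n))) (Fin n ⊕ Fin m) k)))
        * ∏ i, (1 - PowerSeries.X ^ d i) = (N : PowerSeries ℚ) := by
    intro p
    obtain ⟨g1, g2, g3, g4, g5⟩ := hGRD n m A b p
    obtain ⟨G, hG'⟩ := hFGM n m A b h2 hG p
    refine hHS (Finset (Finset (Fin n))) (Fin n ⊕ Fin m) (m + 1) θ d hd hθ (Zp A b p) (Bp A b p)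
      g1 (fun i Φ hΦ => g2 _ (hθI i) Φ hΦ) (fun i Φ hΦ => g3 _ (hθI i) Φ hΦ) g4 g5 G ?_
    intro Φ hΦ
    obtain ⟨a, ha, hb⟩ := hG' Φ hΦ
    exact ⟨a, fun g => hQ ▸ ha g, hb⟩
  choose N hN using hp
  -- the Euler series
  set S : Finset (Finset (Finset (Fin n))) := Finset.univ.filter (fun c => Smp A b c) with hS
  set E : PowerSeries ℚ := ∑ c ∈ S, PowerSeries.C ((-1 : ℚ) ^ (c.card + 1)) *
    gf (fun k => Module.finrank ℚ ↥(invk A b (c.inf id) k)) with hE
  have hE0 : PowerSeries.coeff 0 E = 1 := by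
    rw [hE, map_sum]
    simp only [PowerSeries.coeff_C_mul, gf, PowerSeries.coeff_mk]
    exact hPT n m A b
  have hE1 : E = ∑ p ∈ Finset.range (n + 1), PowerSeries.C ((-1 : ℚ) ^ p) *
      (gf (fun k => Module.finrank ℚ
          ↥(Zp A b p ⊓ hk (Finset (Finset (Fin n))) (Fin n ⊕ Fin m) k)) -
        gf (fun k => Module.finrank ℚ
          ↥(Bp A b p ⊓ hk (Finset (Finset (Fin n))) (Fin n ⊕ Fin m) k))) := by
    ext k
    rw [hE, map_sum, map_sum]
    simp only [PowerSeries.coeff_C_mul, gf, PowerSeries.coeff_mk, map_sub]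
    exact (hEUL n m A b k).symm
  -- Hilbert–Serre for the Euler series
  have hE2 : E * ∏ i, (1 - PowerSeries.X ^ d i) =
      ((∑ p ∈ Finset.range (n + 1), Polynomial.C ((-1 : ℚ) ^ p) * N p : Polynomial ℚ) :
        PowerSeries ℚ) := by
    rw [hE1, Finset.sum_mul]
    have : ((∑ p ∈ Finset.range (n + 1), Polynomial.C ((-1 : ℚ) ^ p) * N p : Polynomial ℚ) :
        PowerSeries ℚ) = ∑ p ∈ Finset.range (n + 1),
          PowerSeries.C ((-1 : ℚ) ^ p) * (N p : PowerSeries ℚ) := by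
      rw [← Polynomial.coeToPowerSeries.ringHom_apply, map_sum]
      refine Finset.sum_congr rfl (fun p _ => ?_)
      rw [map_mul, Polynomial.coeToPowerSeries.ringHom_apply,
        Polynomial.coeToPowerSeries.ringHom_apply, Polynomial.coe_C]
    rw [this]
    refine Finset.sum_congr rfl (fun p _ => ?_)
    rw [mul_assoc, hN p]
  -- Molien for the Euler series
  have hM : ∀ J : Finset (Fin n), ∃ M : ℕ, 0 < M ∧ (Sph A b J → ∀ M' : ℕ, 0 < M' → M ∣ M' →
      ∃ F : Polynomial ℚ, F.natDegree ≤ (n + m) * (M' - 1) ∧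
      gf (fun k => Module.finrank ℚ (invk A b J k)) * (1 - PowerSeries.X ^ M') ^ (n + m)
        = (F : PowerSeries ℚ)) := by
    intro J
    by_cases hJ : Sph A b J
    · obtain ⟨M, hM0, hM1⟩ := hMOL n m A b J h2 hJ
      exact ⟨M, hM0, fun _ => hM1⟩
    · exact ⟨1, one_pos, fun h => absurd h hJ⟩
  choose M hM0 hM1 using hM
  set Q : ℕ := ∏ J : Finset (Fin n), M J with hQd
  have hQ0 : 0 < Q := Finset.prod_pos (fun J _ => hM0 J)
  have hQdvd : ∀ J, M J ∣ Q := fun J => Finset.dvd_prod_of_mem M (Finset.mem_univ J)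
  have hc : ∀ c : Finset (Finset (Fin n)), ∃ F : Polynomial ℚ, c ∈ S →
      (F.natDegree ≤ (n + m) * (Q - 1) ∧
      gf (fun k => Module.finrank ℚ (invk A b (c.inf id) k)) * (1 - PowerSeries.X ^ Q) ^ (n + m)
        = (F : PowerSeries ℚ)) := by
    intro c
    by_cases hcS : c ∈ S
    · have hsm : Smp A b c := (Finset.mem_filter.1 hcS).2
      have hmem := inf_mem c hsm.1 hsm.2.2
      obtain ⟨F, hF⟩ := hM1 (c.inf id) (hsm.2.1 _ hmem) Q hQ0 (hQdvd _)
      exact ⟨F, fun _ => hF⟩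
    · exact ⟨0, fun h => absurd h hcS⟩
  choose F hF' using hc
  set FF : Polynomial ℚ := ∑ c ∈ S, Polynomial.C ((-1 : ℚ) ^ (c.card + 1)) * F c with hFF
  have hE3 : E * (1 - PowerSeries.X ^ Q) ^ (n + m) = (FF : PowerSeries ℚ) := by
    rw [hE, Finset.sum_mul, hFF]
    have : ((∑ c ∈ S, Polynomial.C ((-1 : ℚ) ^ (c.card + 1)) * F c : Polynomial ℚ) :
        PowerSeries ℚ) = ∑ c ∈ S,
          PowerSeries.C ((-1 : ℚ) ^ (c.card + 1)) * (F c : PowerSeries ℚ) := by
      rw [← Polynomial.coeToPowerSeries.ringHom_apply, map_sum]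
      refine Finset.sum_congr rfl (fun p _ => ?_)
      rw [map_mul, Polynomial.coeToPowerSeries.ringHom_apply,
        Polynomial.coeToPowerSeries.ringHom_apply, Polynomial.coe_C]
    rw [this]
    refine Finset.sum_congr rfl (fun c hcS => ?_)
    rw [mul_assoc, (hF' c hcS).2]
  have hFFd : FF.natDegree ≤ (n + m) * (Q - 1) := by
    rw [hFF]
    refine Polynomial.natDegree_sum_le_of_forall_le _ _ (fun c hcS => ?_)
    exact (Polynomial.natDegree_C_mul_le _ _).trans (hF' c hcS).1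
  -- the polynomial identity
  set NN : Polynomial ℚ := ∑ p ∈ Finset.range (n + 1), Polynomial.C ((-1 : ℚ) ^ p) * N p with hNN
  set D : Polynomial ℚ := (1 - Polynomial.X ^ 2) * (1 - Polynomial.X) ^ m with hD
  have hDc : (D : PowerSeries ℚ) = ∏ i, (1 - PowerSeries.X ^ d i) := by
    rw [Fin.prod_univ_succ]
    simp [D, d]
  have hQc : (((1 - Polynomial.X ^ Q) ^ (n + m) : Polynomial ℚ) : PowerSeries ℚ) =
      (1 - PowerSeries.X ^ Q) ^ (n + m) := by
    simp
  have key : FF * D = NN * (1 - Polynomial.X ^ Q) ^ (n + m) := by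
    apply Polynomial.coe_injective ℚ
    rw [Polynomial.coe_mul FF D, Polynomial.coe_mul NN _, ← hE3, ← hE2, hDc, hQc]
    ring
  have hXQ : (1 - Polynomial.X ^ Q : Polynomial ℚ).natDegree = Q := by
    rw [← Polynomial.natDegree_neg, neg_sub]
    exact Polynomial.natDegree_X_pow_sub_C (n := Q) (r := (1 : ℚ))
  have hXQ0 : (1 - Polynomial.X ^ Q : Polynomial ℚ) ≠ 0 := by
    intro h
    rw [h, Polynomial.natDegree_zero] at hXQ
    omega
  have hDd : D.natDegree ≤ 2 + m := by
    rw [hD]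
    refine Polynomial.natDegree_mul_le.trans ?_
    refine add_le_add ?_ ?_
    · refine (Polynomial.natDegree_sub_le _ _).trans ?_
      simp
    · refine Polynomial.natDegree_pow_le.trans ?_
      have : (1 - Polynomial.X : Polynomial ℚ).natDegree ≤ 1 := by
        refine (Polynomial.natDegree_sub_le _ _).trans ?_
        simp
      calc m * (1 - Polynomial.X : Polynomial ℚ).natDegree ≤ m * 1 :=
            Nat.mul_le_mul_left _ this
        _ = m := mul_one _
  have hNN0 : NN = 0 := by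
    by_contra hne
    have h3 : (NN * (1 - Polynomial.X ^ Q) ^ (n + m)).natDegree =
        NN.natDegree + (n + m) * Q := by
      rw [Polynomial.natDegree_mul hne (pow_ne_zero _ hXQ0), Polynomial.natDegree_pow, hXQ]
    have h4 : (FF * D).natDegree ≤ (n + m) * (Q - 1) + (2 + m) :=
      Polynomial.natDegree_mul_le.trans (add_le_add hFFd hDd)
    rw [key, h3] at h4
    obtain ⟨Q', hQ'⟩ : ∃ Q', Q = Q' + 1 := ⟨Q - 1, by omega⟩
    rw [hQ'] at h4
    simp only [Nat.add_sub_cancel, mul_add, mul_one] at h4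
    omega
  have hD0 : D ≠ 0 := by
    intro h
    have := congrArg (Polynomial.eval 2) h
    simp [hD] at this
    norm_num at this
  have hFF0 : FF = 0 := by
    rw [hNN0, zero_mul] at key
    exact (mul_eq_zero.1 key).resolve_right hD0
  rw [hFF0, Polynomial.coe_zero] at hE3
  have hE4 : E = 0 := by
    refine (mul_eq_zero.1 hE3).resolve_right ?_
    rw [← hQc]
    intro h
    have h5 := Polynomial.coe_injective ℚ (h.trans Polynomial.coe_zero.symm)
    exact pow_ne_zero _ hXQ0 h5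
  rw [hE4] at hE0
  simp at hE0

end Pool.Agent.Y461.KM
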