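import Pool.Agent.Y461.KM.Def

/-!
# Project KM: task statements (NOT results)

Every `S_…` is a proposition; a job proves `theorem … : S_…` (or an implication between them).
-/

set_option autoImplicit false

namespace Pool.Agent.Y461.KM

open MvPolynomial

/-! ### Graded pieces -/

/-- Homogeneous invariants of degree `k` of the parabolic subgroup `W_J`. -/
noncomputable def invk {n m : ℕ} (A : Matrix (Fin n) (Fin n) ℤ) (b : Fin n → Fin m → ℚ)
    (J : Finset (Fin n)) (k : ℕ) : Submodule ℚ (Pl n m) :=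
  Subalgebra.toSubmodule (Inv A b J) ⊓ homogeneousSubmodule (Fin n ⊕ Fin m) ℚ k

/-- Families of homogeneous polynomials of degree `k`. -/
noncomputable def hk (ι σ : Type) (k : ℕ) : Submodule ℚ (ι → MvPolynomial σ ℚ) :=
  Submodule.pi Set.univ (fun _ => homogeneousSubmodule σ ℚ k)

/-- The homogeneous component of degree `k` of a family of polynomials. -/
noncomputable def hc {ι σ : Type} (k : ℕ) (Φ : ι → MvPolynomial σ ℚ) :
    ι → MvPolynomial σ ℚ := fun c => homogeneousComponent k (Φ c)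

/-- The generating function of a sequence of natural numbers. -/
noncomputable def gf (d : ℕ → ℕ) : PowerSeries ℚ := PowerSeries.mk (fun k => (d k : ℚ))

/-- Cochains of degree `p` (supported on chains with `p + 1` members). -/
def Cp {n m : ℕ} (A : Matrix (Fin n) (Fin n) ℤ) (b : Fin n → Fin m → ℚ) (p : ℕ) :
    Submodule ℚ (Cch n m) where
  carrier := {Φ | Co A b Φ ∧ ∀ c, c.card ≠ p + 1 → Φ c = 0}
  zero_mem' := ⟨fun _ => ⟨fun _ => rfl, Subalgebra.zero_mem _⟩, fun _ _ => rfl⟩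
  add_mem' := by
    rintro Φ Ψ ⟨h1, h2⟩ ⟨h3, h4⟩
    refine ⟨fun c => ⟨fun hc => ?_, Subalgebra.add_mem _ (h1 c).2 (h3 c).2⟩, fun c hc => ?_⟩
    · simp [(h1 c).1 hc, (h3 c).1 hc]
    · simp [h2 c hc, h4 c hc]
  smul_mem' := by
    rintro a Φ ⟨h1, h2⟩
    refine ⟨fun c => ⟨fun hc => ?_, Subalgebra.smul_mem _ (h1 c).2 a⟩, fun c hc => ?_⟩
    · simp [(h1 c).1 hc]
    · simp [h2 c hc]

/-- The differential as a linear map. -/
noncomputable def ddL {n m : ℕ} (A : Matrix (Fin n) (Fin n) ℤ) (b : Fin n → Fin m → ℚ) :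
    Cch n m →ₗ[ℚ] Cch n m where
  toFun := dd A b
  map_add' := by
    intro Φ Ψ
    funext c
    by_cases h : Smp A b c
    · simp [dd, h, mul_add, Finset.sum_add_distrib]
    · simp [dd, h]
  map_smul' := by
    intro a Φ
    funext c
    by_cases h : Smp A b c
    · simp [dd, h, Finset.smul_sum]
    · simp [dd, h]

/-- Cocycles of degree `p`. -/
noncomputable def Zp {n m : ℕ} (A : Matrix (Fin n) (Fin n) ℤ) (b : Fin n → Fin m → ℚ) (p : ℕ) :
    Submodule ℚ (Cch n m) := Cp A b p ⊓ LinearMap.ker (ddL A b)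

/-- Coboundaries of degree `p`: the images of the cochains of degree `p - 1`
(zero for `p = 0`). -/
noncomputable def Bp {n m : ℕ} (A : Matrix (Fin n) (Fin n) ℤ) (b : Fin n → Fin m → ℚ) :
    ℕ → Submodule ℚ (Cch n m)
  | 0 => ⊥
  | p + 1 => Submodule.map (ddL A b) (Cp A b p)

/-! ### MOL: Molien series of the parabolic subgroups -/

/-- MOL: for a spherical set `J` and suitable `M`, the Hilbert series of the invariants of `W_J`
times `(1 - t^M)^(n+m)` is a polynomial of degree at most `(n+m)(M-1)`, and the same for every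
multiple of `M`. -/
def S_MOL : Prop :=
  ∀ (n m : ℕ) (A : Matrix (Fin n) (Fin n) ℤ) (b : Fin n → Fin m → ℚ) (J : Finset (Fin n)),
    (∀ i, A i i = 2) → Sph A b J →
    ∃ M : ℕ, 0 < M ∧ ∀ M' : ℕ, 0 < M' → M ∣ M' → ∃ F : Polynomial ℚ,
      F.natDegree ≤ (n + m) * (M' - 1) ∧
      gf (fun k => Module.finrank ℚ (invk A b J k)) * (1 - PowerSeries.X ^ M') ^ (n + m)
        = (F : PowerSeries ℚ)

/-! ### HS: Hilbert–Serre -/

/-- HS: Hilbert–Serre theorem for a quotient `Z / B` of graded modules over the algebra generated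
by homogeneous polynomials `θ_i` of degrees `d_i > 0`, with exact denominator. -/
def S_HS : Prop :=
  ∀ (ι σ : Type) [Fintype ι] [Fintype σ] (l : ℕ) (θ : Fin l → MvPolynomial σ ℚ) (d : Fin l → ℕ)
    (_ : ∀ i, 0 < d i) (_ : ∀ i, (θ i).IsHomogeneous (d i))
    (Z B : Submodule ℚ (ι → MvPolynomial σ ℚ)) (_ : B ≤ Z)
    (_ : ∀ i, ∀ Φ ∈ Z, θ i • Φ ∈ Z) (_ : ∀ i, ∀ Φ ∈ B, θ i • Φ ∈ B)
    (_ : ∀ k, ∀ Φ ∈ Z, hc k Φ ∈ Z) (_ : ∀ k, ∀ Φ ∈ B, hc k Φ ∈ B)
    (G : Finset (ι → MvPolynomial σ ℚ))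
    (_ : ∀ Φ ∈ Z, ∃ a : (ι → MvPolynomial σ ℚ) → MvPolynomial σ ℚ,
      (∀ g, a g ∈ Algebra.adjoin ℚ (Set.range θ)) ∧ Φ - ∑ g ∈ G, a g • g ∈ B),
    ∃ N : Polynomial ℚ,
      (gf (fun k => Module.finrank ℚ ↥(Z ⊓ hk ι σ k)) -
        gf (fun k => Module.finrank ℚ ↥(B ⊓ hk ι σ k))) * ∏ i, (1 - PowerSeries.X ^ d i)
        = (N : PowerSeries ℚ)

/-! ### The cochain complex -/

/-- DSQ: the differential preserves cochains and its square vanishes. -/
def S_DSQ : Prop :=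
  ∀ (n m : ℕ) (A : Matrix (Fin n) (Fin n) ℤ) (b : Fin n → Fin m → ℚ) (Φ : Cch n m),
    Co A b Φ → Co A b (dd A b Φ) ∧ dd A b (dd A b Φ) = 0

/-- EUL: the Euler characteristic of the complex in polynomial degree `k`. -/
def S_EUL : Prop :=
  ∀ (n m : ℕ) (A : Matrix (Fin n) (Fin n) ℤ) (b : Fin n → Fin m → ℚ) (k : ℕ),
    open Classical in
    ∑ p ∈ Finset.range (n + 1), (-1 : ℚ) ^ p *
      ((Module.finrank ℚ ↥(Zp A b p ⊓ hk (Finset (Finset (Fin n))) (Fin n ⊕ Fin m) k) : ℚ) -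
        (Module.finrank ℚ ↥(Bp A b p ⊓ hk (Finset (Finset (Fin n))) (Fin n ⊕ Fin m) k) : ℚ))
      = ∑ c ∈ Finset.univ.filter (fun c => Smp A b c),
        (-1 : ℚ) ^ (c.card + 1) * (Module.finrank ℚ ↥(invk A b (c.inf id) k) : ℚ)

/-- PT: in degree `0` the Euler characteristic is `1`. -/
def S_PT : Prop :=
  ∀ (n m : ℕ) (A : Matrix (Fin n) (Fin n) ℤ) (b : Fin n → Fin m → ℚ),
    open Classical in
    ∑ c ∈ Finset.univ.filter (fun c => Smp A b c),
        (-1 : ℚ) ^ (c.card + 1) * (Module.finrank ℚ ↥(invk A b (c.inf id) 0) : ℚ) = 1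

/-- GRD: cocycles and coboundaries of degree `p` are graded modules over the invariants of the
whole group. -/
def S_GRD : Prop :=
  ∀ (n m : ℕ) (A : Matrix (Fin n) (Fin n) ℤ) (b : Fin n → Fin m → ℚ) (p : ℕ),
    Bp A b p ≤ Zp A b p ∧
    (∀ f ∈ Inv A b Finset.univ, ∀ Φ ∈ Zp A b p, f • Φ ∈ Zp A b p) ∧
    (∀ f ∈ Inv A b Finset.univ, ∀ Φ ∈ Bp A b p, f • Φ ∈ Bp A b p) ∧
    (∀ k, ∀ Φ ∈ Zp A b p, hc k Φ ∈ Zp A b p) ∧ (∀ k, ∀ Φ ∈ Bp A b p, hc k Φ ∈ Bp A b p)

/-! ### The cup product -/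

open Classical in
/-- The component of degree `p` of a family. -/
noncomputable def cmp {n m : ℕ} (p : ℕ) (Φ : Cch n m) : Cch n m :=
  fun c => if c.card = p + 1 then Φ c else 0

/-- DGA: formal properties of cup product, unit and components. -/
def S_DGA : Prop :=
  ∀ (n m : ℕ) (A : Matrix (Fin n) (Fin n) ℤ) (b : Fin n → Fin m → ℚ), (∀ i, A i i = 2) →
    (∀ Φ Ψ Θ : Cch n m, cup A b (cup A b Φ Ψ) Θ = cup A b Φ (cup A b Ψ Θ)) ∧
    (∀ Φ Ψ Θ : Cch n m, cup A b (Φ + Ψ) Θ = cup A b Φ Θ + cup A b Ψ Θ) ∧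
    (∀ Φ Ψ Θ : Cch n m, cup A b Φ (Ψ + Θ) = cup A b Φ Ψ + cup A b Φ Θ) ∧
    (∀ (f : Pl n m) (Φ Ψ : Cch n m), cup A b (f • Φ) Ψ = f • cup A b Φ Ψ) ∧
    (∀ (f : Pl n m) (Φ Ψ : Cch n m), cup A b Φ (f • Ψ) = f • cup A b Φ Ψ) ∧
    (∀ Φ : Cch n m, (∀ c, ¬ Smp A b c → Φ c = 0) →
      cup A b (un A b) Φ = Φ ∧ cup A b Φ (un A b) = Φ) ∧
    (∀ (p : ℕ) (Φ Ψ : Cch n m), cmp p (cup A b Φ Ψ) =
      ∑ k ∈ Finset.range (p + 1), cup A b (cmp k Φ) (cmp (p - k) Ψ)) ∧
    (∀ (p : ℕ) (Φ : Cch n m), Co A b Φ → Co A b (cmp p Φ)) ∧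
    (∀ (p : ℕ) (Φ : Cch n m), Co A b Φ → dd A b (cmp p Φ) = cmp (p + 1) (dd A b Φ)) ∧
    (∀ Φ : Cch n m, Co A b Φ → dd A b Φ = 0 →
      ∃ f ∈ Inv A b Finset.univ, cmp 0 Φ = f • un A b)

/-- FGM: if the cohomology ring is finitely generated, the cocycles of degree `p` are, modulo
coboundaries, a finitely generated module over the invariants of the whole group. -/
def S_FGM : Prop :=
  ∀ (n m : ℕ) (A : Matrix (Fin n) (Fin n) ℤ) (b : Fin n → Fin m → ℚ), (∀ i, A i i = 2) →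
    FinGen A b → ∀ p : ℕ, ∃ G : Finset (Cch n m), ∀ Φ ∈ Zp A b p,
      ∃ a : Cch n m → Pl n m, (∀ g, a g ∈ Inv A b Finset.univ) ∧
        Φ - ∑ g ∈ G, a g • g ∈ Bp A b p

/-! ### Invariants of the whole group -/

/-- DIV: the derivative of an `s_i`-invariant polynomial along `h_i` is `α_i` times an
`s_i`-invariant polynomial. -/
def S_DIV : Prop :=
  ∀ (n m : ℕ) (A : Matrix (Fin n) (Fin n) ℤ) (b : Fin n → Fin m → ℚ) (i : Fin n) (f : Pl n m),
    A i i = 2 → rf A b i f = f →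
    ∃ g : Pl n m, pderiv (Sum.inl i) f = al A b i * g ∧ rf A b i g = g

/-- Derivative along the integral combination `∑ v_i h_i` of the coroots. -/
noncomputable def der {n m : ℕ} (v : Fin n → ℤ) (f : Pl n m) : Pl n m :=
  ∑ i, C ((v i : ℤ) : ℚ) * pderiv (Sum.inl i) f

/-- The linear form `∑ r_l α_l`. -/
noncomputable def rl {n m : ℕ} (A : Matrix (Fin n) (Fin n) ℤ) (b : Fin n → Fin m → ℚ)
    (r : Fin n → ℤ) : Pl n m :=
  ∑ l, C ((r l : ℤ) : ℚ) * al A b l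

/-- The value `∑_{k,l} v_k A_{k l} r_l` of the form `∑ r_l α_l` at `∑ v_k h_k`. -/
def pr {n : ℕ} (A : Matrix (Fin n) (Fin n) ℤ) (r v : Fin n → ℤ) : ℤ :=
  ∑ k, ∑ l, v k * A k l * r l

/-- The simple reflection on coroot coordinates: `v ↦ v - α_j(v) h_j`. -/
def sv {n : ℕ} (A : Matrix (Fin n) (Fin n) ℤ) (j : Fin n) (v : Fin n → ℤ) : Fin n → ℤ :=
  fun x => v x - if x = j then ∑ k, v k * A k j else 0

/-- The simple reflection on root coordinates: `β ↦ β - β(h_j) α_j`. -/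
def sr {n : ℕ} (A : Matrix (Fin n) (Fin n) ℤ) (j : Fin n) (r : Fin n → ℤ) : Fin n → ℤ :=
  fun x => r x - if x = j then ∑ l, A j l * r l else 0

/-- The real coroot `w h_i`, `w` the product of the simple reflections of a word. -/
def cv {n : ℕ} (A : Matrix (Fin n) (Fin n) ℤ) (w : List (Fin n)) (i : Fin n) : Fin n → ℤ :=
  w.foldr (sv A) (Pi.single i 1)

/-- The real root `w α_i`. -/
def rt {n : ℕ} (A : Matrix (Fin n) (Fin n) ℤ) (w : List (Fin n)) (i : Fin n) : Fin n → ℤ :=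
  w.foldr (sr A) (Pi.single i 1)

/-- COV: covariance of derivatives and linear forms under the simple reflections. -/
def S_COV : Prop :=
  ∀ (n m : ℕ) (A : Matrix (Fin n) (Fin n) ℤ) (b : Fin n → Fin m → ℚ) (j : Fin n), A j j = 2 →
    (∀ (v : Fin n → ℤ) (f : Pl n m), rf A b j (der v f) = der (sv A j v) (rf A b j f)) ∧
    (∀ r : Fin n → ℤ, rf A b j (rl A b r) = rl A b (sr A j r)) ∧
    (∀ f : Pl n m, rf A b j (rf A b j f) = f) ∧
    (∀ r v : Fin n → ℤ, pr A (sr A j r) (sv A j v) = pr A r v)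

/-- The reflection `x ↦ x - β(x) v` acting on polynomial functions; here `β` and `v` are given by
their coordinates. -/
noncomputable def rr {σ : Type} [Fintype σ] (β v : σ → ℚ) :
    MvPolynomial σ ℚ →ₐ[ℚ] MvPolynomial σ ℚ :=
  aeval (fun x => X x - C (v x) * ∑ y, C (β y) * X y)

/-- HYP: let `f` be invariant under two reflections `s_{β,v}` and `s_{γ,u}` whose product has
infinite order (in the cases listed), `∂_v f = β h` and `∂_u f = γ k`.  Then
`β(u) h = γ(v) k`. -/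
def S_HYP : Prop :=
  ∀ (σ : Type) [Fintype σ] (β v γ u : σ → ℚ) (f h k : MvPolynomial σ ℚ),
    ∑ x, β x * v x = 2 → ∑ x, γ x * u x = 2 →
    rr β v f = f → rr γ u f = f →
    ∑ x, C (v x) * pderiv x f = (∑ x, C (β x) * X x) * h →
    ∑ x, C (u x) * pderiv x f = (∑ x, C (γ x) * X x) * k →
    ((∑ x, β x * u x) * (∑ x, γ x * v x) < 0 ∨ 4 ≤ (∑ x, β x * u x) * (∑ x, γ x * v x) ∨
      ((∑ x, β x * u x) = 0 ∧ (∑ x, γ x * v x) ≠ 0) ∨
      ((∑ x, β x * u x) ≠ 0 ∧ (∑ x, γ x * v x) = 0)) →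
    C (∑ x, β x * u x) * h = C (∑ x, γ x * v x) * k

/-- CON: a `W`-invariant equivalence relation on real roots (given by words) such that
non-equivalent roots have small Cartan numbers identifies all simple roots. -/
def S_CON : Prop :=
  ∀ (n : ℕ) (A : Matrix (Fin n) (Fin n) ℤ), IsGCM A → Indec A → Indef A →
    ∀ E : (List (Fin n) × Fin n) → (List (Fin n) × Fin n) → Prop, Equivalence E →
      (∀ (j : Fin n) (w w' : List (Fin n)) (i i' : Fin n),
        E (w, i) (w', i') → E (j :: w, i) (j :: w', i')) →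
      (∀ (j : Fin n) (w : List (Fin n)) (i : Fin n), E (j :: j :: w, i) (w, i)) →
      (∀ j : Fin n, E ([j], j) ([], j)) →
      (∀ (w w' : List (Fin n)) (i i' : Fin n), ¬ E (w, i) (w', i') →
        |pr A (rt A w i) (cv A w' i')| ≤ 3) →
      ∀ i j : Fin n, E ([], i) ([], j)

/-- SYM: the derivatives of an invariant polynomial. -/
def S_SYM : Prop :=
  ∀ (n m : ℕ) (A : Matrix (Fin n) (Fin n) ℤ) (b : Fin n → Fin m → ℚ),
    IsGCM A → Indec A → Indef A → ∀ f ∈ Inv A b Finset.univ,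
      (∀ i, pderiv (Sum.inl i) f = 0) ∨
      ∃ c : Fin n → ℚ, (∀ i, c i ≠ 0) ∧
        (∀ i j, c i * ((A j i : ℤ) : ℚ) = c j * ((A i j : ℤ) : ℚ)) ∧
        ∃ G ∈ Inv A b Finset.univ, ∀ i, pderiv (Sum.inl i) f = C (c i) * al A b i * G

/-- PW: the ring of invariants of the whole group is generated by the linear invariants and at
most one quadratic form. -/
def S_PW : Prop :=
  ∀ (n m : ℕ) (A : Matrix (Fin n) (Fin n) ℤ) (b : Fin n → Fin m → ℚ),
    IsGCM A → Indec A → Indef A →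
    ∃ q : Pl n m, q.IsHomogeneous 2 ∧
      Inv A b Finset.univ = Algebra.adjoin ℚ
        (Set.range (Fin.cons q (fun s : Fin m => (X (Sum.inr s) : Pl n m)) :
          Fin (m + 1) → Pl n m))

/-- FINAL: the cohomology ring is not finitely generated. -/
def S_FIN : Prop :=
  ∀ (n m : ℕ) (A : Matrix (Fin n) (Fin n) ℤ) (b : Fin n → Fin m → ℚ), 3 ≤ n →
    IsGCM A → Indec A → Indef A → ¬ FinGen A b

end Pool.Agent.Y461.KM
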